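import Pool.Agent.H85D.Drop
import Pool.Agent.H85T.Conv

/-! Exponents. -/

open MeasureTheory Metric Set Filter
open scoped Topology ENNReal InnerProductSpace
open Pool.Agent.H818R2

namespace Pool.Agent.H85D

open Pool.Agent.H85G

/-- the inequality for nearly optimal proportions -/
lemma step {k m : ℕ} (hk : 0 < k) (hm : 0 < m) {θ φ d y D e : ℝ} (hsθ : 0 < Real.sin (θ / 2))
    (hsφ : 0 < Real.sin (φ / 2)) (hd : 0 < d) (hd1 : d < 1) (hφ : 0 ≤ Real.cos φ)
    (hθ : Real.cos φ + d = Real.cos θ * (1 - d)) (hy : 0 < y)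
    (hD : D = (1 - d) * y + d) (he : e = d / D)
    (hke : (k : ℝ) ≤ e * (k + m)) (hme : (m : ℝ) ≤ (1 - e) * (k + m) + 1)
    (hA : (sphMax m θ : ℝ) ≤ y ^ (-((m : ℝ) / 2))) :
    (sphMax (k + m) φ : ℝ) ≤
      4 * (k + m) * (((k : ℝ) + m) / 2 + 1) * Real.exp (1 / (2 * (1 - e))) *
        D ^ (-(((k : ℝ) + m) / 2)) := by
  have hk0 : (0 : ℝ) < k := by exact_mod_cast hk
  have hm0 : (0 : ℝ) < m := by exact_mod_cast hm
  have hd2 : 0 < 1 - d := by linarith
  have hDp : 0 < D := by rw [hD]; positivity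
  have he0 : 0 < e := by rw [he]; positivity
  have he1 : 1 - e = (1 - d) * y / D := by
    rw [he, hD]
    have : (1 - d) * y + d ≠ 0 := by rw [← hD]; exact hDp.ne'
    field_simp
    ring
  have he2 : 0 < 1 - e := by rw [he1]; positivity
  have h := drop_ineq hk hm hsθ hsφ hd hd1 hφ hθ
  rw [sqrt_pow_eq hd.le, sqrt_pow_eq hd2.le] at h
  set N : ℝ := k + m with hN
  have hN0 : 0 < N := by positivity
  set P : ℝ := 4 * N * (N / 2 + 1) with hP
  have h1 : (k / N) ^ ((k : ℝ) / 2) ≤ d ^ ((k : ℝ) / 2) * D ^ (-((k : ℝ) / 2)) := by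
    have e1 : d ^ ((k : ℝ) / 2) * D ^ (-((k : ℝ) / 2)) = e ^ ((k : ℝ) / 2) := by
      rw [he, Real.div_rpow hd.le hDp.le, Real.rpow_neg hDp.le]
      exact (div_eq_mul_inv _ _).symm
    rw [e1]
    apply Real.rpow_le_rpow (by positivity) _ (by positivity)
    rw [div_le_iff₀ hN0]
    exact hke
  have h2 : (m / N) ^ ((m : ℝ) / 2) ≤ (1 - d) ^ ((m : ℝ) / 2) * y ^ ((m : ℝ) / 2) *
      D ^ (-((m : ℝ) / 2)) * Real.exp (1 / (2 * (1 - e))) := by
    have e1 : (1 - d) ^ ((m : ℝ) / 2) * y ^ ((m : ℝ) / 2) * D ^ (-((m : ℝ) / 2)) =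
        (1 - e) ^ ((m : ℝ) / 2) := by
      rw [he1, Real.div_rpow (by positivity) hDp.le, Real.mul_rpow hd2.le hy.le,
        Real.rpow_neg hDp.le]
      exact (div_eq_mul_inv _ _).symm
    rw [e1]
    have e2 : m / N ≤ (1 - e) * Real.exp (1 / ((1 - e) * N)) := by
      have e3 : 1 / ((1 - e) * N) + 1 ≤ Real.exp (1 / ((1 - e) * N)) := Real.add_one_le_exp _
      have e4 := mul_le_mul_of_nonneg_left e3 he2.le
      refine le_trans ?_ e4
      rw [div_le_iff₀ hN0]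
      have e5 : (1 - e) * (1 / ((1 - e) * N) + 1) * N = (1 - e) * N + 1 := by
        field_simp; ring
      rw [e5]
      exact hme
    have e3 : (m / N) ^ ((m : ℝ) / 2) ≤ ((1 - e) * Real.exp (1 / ((1 - e) * N))) ^ ((m : ℝ) / 2) :=
      Real.rpow_le_rpow (by positivity) e2 (by positivity)
    refine e3.trans ?_
    rw [Real.mul_rpow he2.le (Real.exp_pos _).le, ← Real.exp_mul]
    apply mul_le_mul_of_nonneg_left _ (by positivity)
    apply Real.exp_le_exp.2
    have e6 : 1 / ((1 - e) * N) * ((m : ℝ) / 2) = 1 / (2 * (1 - e)) * (m / N) := by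
      field_simp
    rw [e6]
    have e7 : m / N ≤ 1 := by
      rw [div_le_one hN0, hN]; linarith
    have e8 : 0 < 1 / (2 * (1 - e)) := by positivity
    nlinarith
  have hy2 : y ^ ((m : ℝ) / 2) * y ^ (-((m : ℝ) / 2)) = 1 := by
    rw [← Real.rpow_add hy]; simp
  have hDD : D ^ (-((k : ℝ) / 2)) * D ^ (-((m : ℝ) / 2)) = D ^ (-(N / 2)) := by
    rw [← Real.rpow_add hDp]; congr 1; rw [hN]; ring
  set E := Real.exp (1 / (2 * (1 - e))) with hE
  have hE0 : 0 < E := Real.exp_pos _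
  have hP0 : 0 < P := by positivity
  have h3 : (sphMax (k + m) φ : ℝ) * (d ^ ((k : ℝ) / 2) * (1 - d) ^ ((m : ℝ) / 2)) ≤
      (P * E * D ^ (-(N / 2))) * (d ^ ((k : ℝ) / 2) * (1 - d) ^ ((m : ℝ) / 2)) := by
    calc _ ≤ _ := h
      _ ≤ P * ((d ^ ((k : ℝ) / 2) * D ^ (-((k : ℝ) / 2))) *
          ((1 - d) ^ ((m : ℝ) / 2) * y ^ ((m : ℝ) / 2) * D ^ (-((m : ℝ) / 2)) * E)) *
          y ^ (-((m : ℝ) / 2)) := by
          apply mul_le_mul _ hA (Nat.cast_nonneg _) (by positivity)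
          apply mul_le_mul_of_nonneg_left _ hP0.le
          exact mul_le_mul h1 h2 (by positivity) (by positivity)
      _ = P * E * (D ^ (-((k : ℝ) / 2)) * D ^ (-((m : ℝ) / 2))) *
          (y ^ ((m : ℝ) / 2) * y ^ (-((m : ℝ) / 2))) *
          (d ^ ((k : ℝ) / 2) * (1 - d) ^ ((m : ℝ) / 2)) := by ring
      _ = _ := by rw [hy2, hDD]; ring
  exact le_of_mul_le_mul_right h3 (by positivity)

lemma tendsto_poly {C : ℝ} (hC : 0 < C) : Tendsto (fun n : ℕ =>
    Real.logb 2 (4 * (n : ℝ) * ((n : ℝ) / 2 + 1) * C) / n) atTop (𝓝 0) := by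
  have h1 : Tendsto (fun n : ℕ => Real.logb 2 (4 * ((n : ℝ) + 1)) / n +
      (Real.logb 2 (4 * ((n : ℝ) + 1)) / n + Real.logb 2 C / n)) atTop (𝓝 (0 + (0 + 0))) :=
    tendsto_logb_div.add (tendsto_logb_div.add (tendsto_const_div_atTop_nhds_zero_nat _))
  rw [add_zero, add_zero] at h1
  have h2 : Tendsto (fun n : ℕ => Real.logb 2 C / n) atTop (𝓝 0) :=
    tendsto_const_div_atTop_nhds_zero_nat _
  apply tendsto_of_tendsto_of_tendsto_of_le_of_le' h2 h1
  · filter_upwards [eventually_ge_atTop 1] with n hn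
    have hn0 : (1 : ℝ) ≤ n := by exact_mod_cast hn
    apply div_le_div_of_nonneg_right _ (by positivity)
    apply Real.logb_le_logb_of_le (by norm_num) hC
    have : 1 ≤ 4 * (n : ℝ) * ((n : ℝ) / 2 + 1) := by nlinarith
    nlinarith
  · filter_upwards [eventually_ge_atTop 1] with n hn
    have hn0 : (1 : ℝ) ≤ n := by exact_mod_cast hn
    rw [← add_div, ← add_div]
    apply div_le_div_of_nonneg_right _ (by positivity)
    rw [← Real.logb_mul (by positivity) hC.ne', ← Real.logb_mul (by positivity) (by positivity)]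
    apply Real.logb_le_logb_of_le (by norm_num) (by positivity)
    have : 4 * (n : ℝ) * ((n : ℝ) / 2 + 1) ≤ 4 * ((n : ℝ) + 1) * (4 * ((n : ℝ) + 1)) := by nlinarith
    nlinarith

section
variable {θ φ : ℝ} (h0 : 0 < θ) (h1 : θ < φ) (h2 : φ < Real.pi / 2)

/-- the part of the norm which is cut off -/
noncomputable def dd (θ φ : ℝ) : ℝ := (Real.cos θ - Real.cos φ) / (1 + Real.cos θ)

include h0 h1 h2

lemma dd_facts : 0 < dd θ φ ∧ dd θ φ < 1 ∧
    Real.cos φ + dd θ φ = Real.cos θ * (1 - dd θ φ) ∧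
    1 - dd θ φ = (1 + Real.cos φ) / (1 + Real.cos θ) := by
  have hc : Real.cos φ < Real.cos θ := Real.cos_lt_cos_of_nonneg_of_le_pi_div_two h0.le h2.le h1
  have hφ : 0 < Real.cos φ := Real.cos_pos_of_mem_Ioo ⟨by linarith [Real.pi_pos], h2⟩
  have h3 : 0 < 1 + Real.cos θ := by linarith
  unfold dd
  refine ⟨div_pos (by linarith) h3, ?_, ?_, ?_⟩
  · rw [div_lt_one h3]; linarith
  · field_simp; ring
  · field_simp; ring

/-- the inequality for exponents in one dimension -/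
theorem step_rate {r η : ℝ} (hη : 0 < η) : ∀ᶠ N : ℕ in atTop, ∀ k m : ℕ, k + m = N → 0 < k →
    2 ≤ m → (k : ℝ) ≤ dd θ φ / ((1 - dd θ φ) * (2 : ℝ) ^ (-2 * r) + dd θ φ) * N →
    (m : ℝ) ≤ (1 - dd θ φ / ((1 - dd θ φ) * (2 : ℝ) ^ (-2 * r) + dd θ φ)) * N + 1 →
    codeRate θ m < r →
    codeRate φ N < -(1 / 2 * Real.logb 2 ((1 - dd θ φ) * (2 : ℝ) ^ (-2 * r) + dd θ φ)) + η := by
  obtain ⟨hd, hd1, hθ, hdd⟩ := dd_facts h0 h1 h2
  have hφ : 0 < Real.cos φ := Real.cos_pos_of_mem_Ioo ⟨by linarith [Real.pi_pos], h2⟩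
  set d := dd θ φ with hddef
  set y : ℝ := (2 : ℝ) ^ (-2 * r) with hy
  have hy0 : 0 < y := by positivity
  have hd2 : 0 < 1 - d := by linarith
  obtain ⟨D, hD⟩ : ∃ D, D = (1 - d) * y + d := ⟨_, rfl⟩
  obtain ⟨e, he⟩ : ∃ e, e = d / D := ⟨_, rfl⟩
  rw [← hD, ← he]
  have hDp : 0 < D := by rw [hD]; positivity
  have hC : 0 < Real.exp (1 / (2 * (1 - e))) := Real.exp_pos _
  filter_upwards [(tendsto_poly hC).eventually (gt_mem_nhds hη), eventually_ge_atTop 2]
    with N hN hN2 k m hkm hk hm hke hme hrate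
  have hN0 : (0 : ℝ) < N := by
    have : 0 < N := by omega
    exact_mod_cast this
  have hm0 : (0 : ℝ) < m := by
    have : 0 < m := by omega
    exact_mod_cast this
  have hNr : (N : ℝ) = k + m := by rw [← hkm]; push_cast; ring
  have hA := sphMax_pos (d := N) hN2 (sin_half (h0.trans h1) h2)
  have hB := sphMax_pos (d := m) hm (sin_half h0 (h1.trans h2))
  have hAm : (sphMax m θ : ℝ) ≤ y ^ (-((m : ℝ) / 2)) := by
    unfold codeRate at hrate
    rw [div_lt_iff₀ hm0, Real.logb_lt_iff_lt_rpow (by norm_num) hB] at hrate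
    refine hrate.le.trans (le_of_eq ?_)
    rw [hy, ← Real.rpow_mul (by norm_num)]
    congr 1; ring
  have h := step hk (by omega : 0 < m) (sin_half h0 (h1.trans h2)) (sin_half (h0.trans h1) h2) hd
    hd1 hφ.le hθ hy0 hD he (by rw [← hNr]; exact hke) (by rw [← hNr]; exact hme) hAm
  rw [hkm, ← hNr] at h
  have hlog := Real.logb_le_logb_of_le (b := 2) (by norm_num) hA h
  rw [Real.logb_mul (by positivity) (by positivity), Real.logb_rpow_eq_mul_logb_of_pos hDp] at hlog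
  rw [div_lt_iff₀ hN0] at hN
  unfold codeRate
  rw [div_lt_iff₀ hN0]
  linarith

end

end Pool.Agent.H85D
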