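import Pool.Agent.H85D.Vol
import Pool.Agent.H85T.Cont

/-! From codes of a large angle to codes of a smaller angle in a smaller dimension. -/

open MeasureTheory Metric Set Filter
open scoped Topology ENNReal InnerProductSpace
open Pool.Agent.H818R2
open Pool.Agent.Results.MP_b62b68_gt.NoSymmetrization (O haarO col col_orthonormal)
open Pool.Agent.TH774.MK (act act_mul act_single inner_act norm_act exists_col ball_average
  measurable_act)

namespace Pool.Agent.H85D

open Pool.Agent.H85G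

open Classical in
/-- some rotation moves many points of a set of unit vectors into a given cone -/
lemma exists_rotation {n : ℕ} [NeZero n] {G : Set (EuclideanSpace ℝ (Fin n))}
    (hG : MeasurableSet G) (hG0 : ∀ (r : ℝ) (x : EuclideanSpace ℝ (Fin n)), 0 < r →
      (r • x ∈ G ↔ x ∈ G)) {P : Finset (EuclideanSpace ℝ (Fin n))} (hP : ∀ x ∈ P, ‖x‖ = 1) :
    ∃ g : O n, (P.card : ℝ) * volume.real (G ∩ ball 0 1) ≤
      (P.filter fun x => act g x ∈ G).card * vb (EuclideanSpace ℝ (Fin n)) := by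
  set k : Fin n := ⟨0, Nat.pos_of_ne_zero (NeZero.ne n)⟩ with hk
  set F : EuclideanSpace ℝ (Fin n) → ℝ≥0∞ := G.indicator 1 with hF
  have hFm : Measurable F := measurable_one.indicator hG
  have hF0 : ∀ (r : ℝ) (x : EuclideanSpace ℝ (Fin n)), 0 < r → F (r • x) = F x := by
    intro r x hr
    rw [hF, indicator_apply, indicator_apply]
    simp only [hG0 r x hr, Pi.one_apply]
  by_contra hcon
  push Not at hcon
  have hvb : 0 < vb (EuclideanSpace ℝ (Fin n)) := vb_pos
  have hfin : volume (G ∩ ball (0 : EuclideanSpace ℝ (Fin n)) 1) ≠ ⊤ :=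
    ((measure_mono inter_subset_right).trans_lt measure_ball_lt_top).ne
  -- the sum for one rotation
  have h3 : ∀ g : O n, ∑ y ∈ P, F (act g y) = ((P.filter fun y => act g y ∈ G).card : ℝ≥0∞) := by
    intro g
    rw [Finset.card_filter, Nat.cast_sum]
    apply Finset.sum_congr rfl
    intro y _
    rw [hF, indicator_apply]
    split_ifs <;> simp
  have h1 : ∫⁻ g, ∑ y ∈ P, F (act g y) ∂(haarO n) = P.card * ∫⁻ g, F (col g k) ∂(haarO n) := by
    calc ∫⁻ g, ∑ y ∈ P, F (act g y) ∂(haarO n) = ∑ y ∈ P, ∫⁻ g, F (act g y) ∂(haarO n) := by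
          apply lintegral_finsetSum
          intro y _
          exact hFm.comp (measurable_act_right y)
      _ = ∑ y ∈ P, ∫⁻ g, F (col g k) ∂(haarO n) := by
          apply Finset.sum_congr rfl
          intro y hy
          exact rot_integral k (hP y hy)
      _ = _ := by rw [Finset.sum_const, nsmul_eq_mul]
  have h4 : ∫⁻ x in ball (0 : EuclideanSpace ℝ (Fin n)) 1, F x =
      volume (G ∩ ball 0 1) := by
    rw [hF, lintegral_indicator_one hG, Measure.restrict_apply hG]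
  have h5 := ball_average k hFm hF0
  rw [h4] at h5
  -- the maximal value
  set f : O n → ℕ := fun g => (P.filter fun y => act g y ∈ G).card with hf
  have hne : (Set.range f).Nonempty := ⟨_, 1, rfl⟩
  have hbdd : BddAbove (Set.range f) := by
    refine ⟨P.card, ?_⟩
    rintro _ ⟨z, rfl⟩
    exact Finset.card_filter_le _ _
  obtain ⟨g0, hg0⟩ := Nat.sSup_mem hne hbdd
  have hmax : ∀ g, f g ≤ f g0 := fun g => by rw [hg0]; exact le_csSup hbdd ⟨g, rfl⟩
  have h6 : (P.card : ℝ≥0∞) * ∫⁻ g, F (col g k) ∂(haarO n) ≤ (f g0 : ℝ≥0∞) := by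
    rw [← h1]
    calc ∫⁻ g, ∑ y ∈ P, F (act g y) ∂(haarO n) ≤ ∫⁻ _g, (f g0 : ℝ≥0∞) ∂(haarO n) := by
          apply lintegral_mono
          intro g
          change ∑ y ∈ P, F (act g y) ≤ (f g0 : ℝ≥0∞)
          rw [h3 g]
          exact Nat.cast_le.2 (hmax g)
      _ = _ := by simp
  have h7 : (P.card : ℝ≥0∞) * volume (G ∩ ball (0 : EuclideanSpace ℝ (Fin n)) 1) ≤
      (f g0 : ℝ≥0∞) * volume (ball (0 : EuclideanSpace ℝ (Fin n)) 1) := by
    rw [h5]
    calc (P.card : ℝ≥0∞) * (volume (ball (0 : EuclideanSpace ℝ (Fin n)) 1) *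
          ∫⁻ g, F (col g k) ∂(haarO n))
        = (P.card * ∫⁻ g, F (col g k) ∂(haarO n)) *
          volume (ball (0 : EuclideanSpace ℝ (Fin n)) 1) := by ring
      _ ≤ _ := mul_le_mul_left h6 _
  have h8 := ENNReal.toReal_mono (ENNReal.mul_ne_top (ENNReal.natCast_ne_top _)
    measure_ball_lt_top.ne) h7
  rw [ENNReal.toReal_mul, ENNReal.toReal_mul, ENNReal.toReal_natCast, ENNReal.toReal_natCast] at h8
  have h9 := hcon g0
  exact absurd h8 (not_le.2 h9)

section
variable {k m : ℕ}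

/-- the decomposition of the space -/
noncomputable def iso (k m : ℕ) :
    WithLp 2 (EuclideanSpace ℝ (Fin k) × EuclideanSpace ℝ (Fin m)) ≃ₗᵢ[ℝ]
      EuclideanSpace ℝ (Fin (k + m)) :=
  ((stdOrthonormalBasis ℝ (WithLp 2 (EuclideanSpace ℝ (Fin k) × EuclideanSpace ℝ (Fin m)))).reindex
    (finCongr (by rw [finrank_withLp, finrank_euclideanSpace_fin, finrank_euclideanSpace_fin]))).repr

open Classical in
/-- the inequality between the codes of two angles and dimensions -/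
theorem drop_ineq (hk : 0 < k) (hm : 0 < m) {θ φ d : ℝ} (hsθ : 0 < Real.sin (θ / 2))
    (hsφ : 0 < Real.sin (φ / 2)) (hd : 0 < d) (hd1 : d < 1) (hφ : 0 ≤ Real.cos φ)
    (hθ : Real.cos φ + d = Real.cos θ * (1 - d)) :
    (sphMax (k + m) φ : ℝ) * (√d ^ k * √(1 - d) ^ m) ≤
      4 * (k + m) * (((k : ℝ) + m) / 2 + 1) *
      (((k : ℝ) / (k + m)) ^ ((k : ℝ) / 2) * ((m : ℝ) / (k + m)) ^ ((m : ℝ) / 2)) *
      sphMax m θ := by
  have : NeZero (k + m) := ⟨by omega⟩
  have : NeZero m := ⟨by omega⟩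
  have : NeZero k := ⟨by omega⟩
  have : Nontrivial (EuclideanSpace ℝ (Fin k)) := by
    have : Nonempty (Fin k) := ⟨⟨0, hk⟩⟩
    infer_instance
  have : Nontrivial (EuclideanSpace ℝ (Fin m)) := by
    have : Nonempty (Fin m) := ⟨⟨0, hm⟩⟩
    infer_instance
  have hd2 : 0 < 1 - d := by linarith
  have hk0 : (0 : ℝ) < k := by exact_mod_cast hk
  have hm0 : (0 : ℝ) < m := by exact_mod_cast hm
  set ι := iso k m with hι
  set U := EuclideanSpace ℝ (Fin k)
  set W := EuclideanSpace ℝ (Fin m)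
  set G : Set (EuclideanSpace ℝ (Fin (k + m))) := ι.symm ⁻¹' (cone U W d) with hG
  have hGm : MeasurableSet G := ι.symm.continuous.measurable (cone_meas d)
  have hGmem : ∀ y, y ∈ G ↔ (1 - d) * ‖(ι.symm y).fst‖ ^ 2 ≤ d * ‖(ι.symm y).snd‖ ^ 2 :=
    fun y => Iff.rfl
  have hG0 : ∀ (r : ℝ) (x : EuclideanSpace ℝ (Fin (k + m))), 0 < r → (r • x ∈ G ↔ x ∈ G) := by
    intro r x hr
    rw [hGmem, hGmem, map_smul]
    rw [show (r • ι.symm x).fst = r • (ι.symm x).fst from rfl,
      show (r • ι.symm x).snd = r • (ι.symm x).snd from rfl, norm_smul, norm_smul, mul_pow, mul_pow,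
      Real.norm_of_nonneg hr.le]
    have hr2 : 0 < r ^ 2 := by positivity
    constructor
    · intro h
      have : r ^ 2 * ((1 - d) * ‖(ι.symm x).fst‖ ^ 2) ≤ r ^ 2 * (d * ‖(ι.symm x).snd‖ ^ 2) := by
        linarith
      exact le_of_mul_le_mul_left this hr2
    · intro h
      have := mul_le_mul_of_nonneg_left h hr2.le
      linarith
  obtain ⟨P, hP, hPc⟩ := Nat.sSup_mem (sph_nonempty (k + m) φ) (sph_bdd hsφ)
  change P.card = sphMax (k + m) φ at hPc
  obtain ⟨g, hg⟩ := exists_rotation hGm hG0 hP.1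
  -- the volume
  have hvol : volume.real (G ∩ ball 0 1) = volume.real (cone U W d ∩ ball 0 1) := by
    have h1 := ι.symm.measurePreserving.measure_preimage
      ((cone_meas (U := U) (V := W) d).inter
        (measurableSet_ball (x := (0 : WithLp 2 (U × W))) (ε := 1))).nullMeasurableSet
    have h2 : ι.symm ⁻¹' (cone U W d ∩ ball 0 1) = G ∩ ball 0 1 := by
      rw [preimage_inter, LinearIsometryEquiv.preimage_ball]
      simp [hG]
    rw [h2] at h1
    rw [measureReal_def, measureReal_def, h1]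
  have hvl := cone_vol (U := U) (V := W) hd hd1 (by rw [finrank_euclideanSpace_fin]; exact hm)
  have hvr := vb_ratio (U := U) (V := W)
  rw [finrank_euclideanSpace_fin, finrank_euclideanSpace_fin] at hvl hvr
  have hvi : vb (WithLp 2 (U × W)) = vb (EuclideanSpace ℝ (Fin (k + m))) := vb_isometry ι
  rw [hvi] at hvr
  set X := P.filter fun x => act g x ∈ G with hX
  -- the new code
  set q : EuclideanSpace ℝ (Fin (k + m)) → W := fun x => (ι.symm (act g x)).snd with hq
  set p : EuclideanSpace ℝ (Fin (k + m)) → U := fun x => (ι.symm (act g x)).fst with hp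
  have hinner : ∀ x y, ⟪p x, p y⟫_ℝ + ⟪q x, q y⟫_ℝ = ⟪x, y⟫_ℝ := by
    intro x y
    have h1 : ⟪ι.symm (act g x), ι.symm (act g y)⟫_ℝ = ⟪x, y⟫_ℝ := by
      rw [LinearIsometryEquiv.inner_map_map, inner_act]
    rw [← h1, WithLp.prod_inner_apply]
    rfl
  have hnorm : ∀ x, ‖p x‖ ^ 2 + ‖q x‖ ^ 2 = ‖x‖ ^ 2 := by
    intro x
    rw [← real_inner_self_eq_norm_sq, ← real_inner_self_eq_norm_sq, hinner,
      real_inner_self_eq_norm_sq]
  have hXm : ∀ x ∈ X, x ∈ P ∧ ‖x‖ = 1 ∧ ‖p x‖ ^ 2 ≤ d ∧ 1 - d ≤ ‖q x‖ ^ 2 := by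
    intro x hx
    obtain ⟨hx1, hx2⟩ := Finset.mem_filter.1 hx
    have h1 := hnorm x
    rw [hP.1 x hx1] at h1
    have h2 : (1 - d) * ‖p x‖ ^ 2 ≤ d * ‖q x‖ ^ 2 := (hGmem _).1 hx2
    refine ⟨hx1, hP.1 x hx1, by nlinarith, by nlinarith⟩
  have hqpos : ∀ x ∈ X, 0 < ‖q x‖ := by
    intro x hx
    have := (hXm x hx).2.2.2
    by_contra hcon
    have h0 : ‖q x‖ = 0 := le_antisymm (not_lt.1 hcon) (norm_nonneg _)
    rw [h0] at this
    norm_num at this
    linarith
  have hpair : ∀ x ∈ X, ∀ y ∈ X, x ≠ y → ⟪q x, q y⟫_ℝ ≤ Real.cos θ * (‖q x‖ * ‖q y‖) := by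
    intro x hx y hy hxy
    obtain ⟨x1, x2, x3, x4⟩ := hXm x hx
    obtain ⟨y1, y2, y3, y4⟩ := hXm y hy
    have h1 := hinner x y
    have h2 := hP.2 x x1 y y1 hxy
    have h3 := (abs_le.1 (abs_real_inner_le_norm (p x) (p y))).1
    have h4 : ‖p x‖ * ‖p y‖ ≤ d := by
      have := sq_nonneg (‖p x‖ - ‖p y‖)
      nlinarith
    have h5 : 1 - d ≤ ‖q x‖ * ‖q y‖ := by
      rcases le_total ‖q x‖ ‖q y‖ with h | h
      · have : ‖q x‖ * ‖q x‖ ≤ ‖q x‖ * ‖q y‖ := mul_le_mul_of_nonneg_left h (norm_nonneg _)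
        linarith [pow_two ‖q x‖]
      · have : ‖q y‖ * ‖q y‖ ≤ ‖q x‖ * ‖q y‖ := mul_le_mul_of_nonneg_right h (norm_nonneg _)
        linarith [pow_two ‖q y‖]
    have hcθ : 0 ≤ Real.cos θ := by
      by_contra hneg
      push Not at hneg
      have : Real.cos θ * (1 - d) < 0 := mul_neg_of_neg_of_pos hneg hd2
      linarith
    have h6 := mul_le_mul_of_nonneg_left h5 hcθ
    linarith
  set ν : EuclideanSpace ℝ (Fin (k + m)) → W := fun x => ‖q x‖⁻¹ • q x with hν
  have hcθ1 : Real.cos θ < 1 := by rw [cos_eq]; nlinarith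
  have hν1 : ∀ x ∈ X, ‖ν x‖ = 1 := by
    intro x hx
    rw [hν]
    simp only
    rw [norm_smul, norm_inv, norm_norm, inv_mul_cancel₀ (hqpos x hx).ne']
  have hνin : ∀ x ∈ X, ∀ y ∈ X, x ≠ y → ⟪ν x, ν y⟫_ℝ ≤ Real.cos θ := by
    intro x hx y hy hxy
    have h4 := hpair x hx y hy hxy
    have h2 := hqpos x hx
    have h3 := hqpos y hy
    rw [hν]
    simp only
    rw [inner_smul_left, inner_smul_right, conj_trivial, ← mul_assoc, ← mul_inv,
      inv_mul_eq_div, div_le_iff₀ (by positivity)]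
    exact h4
  have hinj : Set.InjOn ν (X : Set (EuclideanSpace ℝ (Fin (k + m)))) := by
    intro x hx y hy hxy
    by_contra hne
    have h2 := hνin x hx y hy hne
    rw [← hxy, real_inner_self_eq_norm_sq, hν1 x hx] at h2
    linarith
  have hcode : IsSphCode m θ (X.image ν) := by
    constructor
    · intro u hu
      obtain ⟨x, hx, rfl⟩ := Finset.mem_image.1 hu
      exact hν1 x hx
    · intro u hu v hv huv
      obtain ⟨x, hx, rfl⟩ := Finset.mem_image.1 hu
      obtain ⟨y, hy, rfl⟩ := Finset.mem_image.1 hv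
      exact hνin x hx y hy (fun h => huv (by rw [h]))
  have hXc := le_sphMax hsθ hcode
  rw [Finset.card_image_of_injOn hinj] at hXc
  have hXc' : (X.card : ℝ) ≤ sphMax m θ := by exact_mod_cast hXc
  -- conclusion
  have hU : 0 < vb U := vb_pos
  have hW : 0 < vb W := vb_pos
  rw [hvol, hPc] at hg
  set a : ℝ := √d ^ k * √(1 - d) ^ m with ha
  set R : ℝ := ((k : ℝ) / (k + m)) ^ ((k : ℝ) / 2) * ((m : ℝ) / (k + m)) ^ ((m : ℝ) / 2) with hR
  have hR0 : 0 ≤ R := by positivity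
  have h1 : (sphMax (k + m) φ : ℝ) * (1 / (4 * ((k : ℝ) + m)) * a * (vb U * vb W)) ≤
      sphMax m θ * ((((k : ℝ) + m) / 2 + 1) * R * (vb U * vb W)) := by
    calc (sphMax (k + m) φ : ℝ) * (1 / (4 * ((k : ℝ) + m)) * a * (vb U * vb W))
        ≤ sphMax (k + m) φ * volume.real (cone U W d ∩ ball 0 1) :=
          mul_le_mul_of_nonneg_left hvl (Nat.cast_nonneg _)
      _ ≤ X.card * vb (EuclideanSpace ℝ (Fin (k + m))) := hg
      _ ≤ sphMax m θ * ((((k : ℝ) + m) / 2 + 1) * R * (vb U * vb W)) :=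
          mul_le_mul hXc' hvr vb_pos.le (Nat.cast_nonneg _)
  have h2 : (sphMax (k + m) φ : ℝ) * a * (vb U * vb W) ≤
      4 * ((k : ℝ) + m) * (((k : ℝ) + m) / 2 + 1) * R * sphMax m θ * (vb U * vb W) := by
    have h3 := mul_le_mul_of_nonneg_left h1 (show (0 : ℝ) ≤ 4 * ((k : ℝ) + m) by positivity)
    refine le_trans (le_of_eq ?_) (h3.trans (le_of_eq ?_))
    · field_simp
    · ring
  exact le_of_mul_le_mul_right h2 (by positivity)

end

end Pool.Agent.H85D
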