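import Pool.Agent.H85D.Asym
import Pool.Agent.H85T.Equiv

/-! Limits. -/

open MeasureTheory Metric Set Filter
open scoped Topology ENNReal InnerProductSpace
open Pool.Agent.H818R2

namespace Pool.Agent.H85D

open Pool.Agent.H85G Pool.Agent.H85T

/-- the mixture -/
noncomputable def DD (θ φ r : ℝ) : ℝ := (1 - dd θ φ) * (2 : ℝ) ^ (-2 * r) + dd θ φ

section
variable {θ φ : ℝ} (h0 : 0 < θ) (h1 : θ < φ) (h2 : φ < Real.pi / 2)
include h0 h1 h2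

lemma ratio_facts (r : ℝ) : 0 < dd θ φ / DD θ φ r ∧ dd θ φ / DD θ φ r < 1 := by
  obtain ⟨hd, hd1, -, -⟩ := dd_facts h0 h1 h2
  have hy : (0 : ℝ) < (2 : ℝ) ^ (-2 * r) := by positivity
  have h3 : 0 < (1 - dd θ φ) * (2 : ℝ) ^ (-2 * r) := mul_pos (by linarith) hy
  unfold DD
  constructor
  · positivity
  · rw [div_lt_one (by linarith)]
    linarith

theorem ev_step {r : ℝ} (h : ∀ᶠ m : ℕ in atTop, codeRate θ m < r) {η : ℝ} (hη : 0 < η) :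
    ∀ᶠ N : ℕ in atTop, codeRate φ N < -(1 / 2 * Real.logb 2 (DD θ φ r)) + η := by
  obtain ⟨he0, he1⟩ := ratio_facts h0 h1 h2 r
  have hstep := step_rate (r := r) h0 h1 h2 hη
  obtain ⟨e, he⟩ : ∃ e, e = dd θ φ / DD θ φ r := ⟨_, rfl⟩
  rw [← he] at he0 he1
  have he' : dd θ φ / ((1 - dd θ φ) * (2 : ℝ) ^ (-2 * r) + dd θ φ) = e := by rw [he]; rfl
  rw [he'] at hstep
  obtain ⟨m0, hm0⟩ := eventually_atTop.1 h
  have t1 : Tendsto (fun N : ℕ => e * (N : ℝ)) atTop atTop :=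
    tendsto_natCast_atTop_atTop.const_mul_atTop he0
  have t2 : Tendsto (fun N : ℕ => (1 - e) * (N : ℝ)) atTop atTop :=
    tendsto_natCast_atTop_atTop.const_mul_atTop (by linarith)
  filter_upwards [hstep, t1.eventually_ge_atTop 1, t2.eventually_ge_atTop ((m0 : ℝ) + 2)]
    with N hN h3 h4
  have hN0 : (0 : ℝ) ≤ N := Nat.cast_nonneg N
  have hfl : ((⌊e * (N : ℝ)⌋₊ : ℕ) : ℝ) ≤ e * N := Nat.floor_le (by positivity)
  have hfl2 : e * (N : ℝ) < (⌊e * (N : ℝ)⌋₊ : ℕ) + 1 := Nat.lt_floor_add_one _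
  have hkN : ⌊e * (N : ℝ)⌋₊ ≤ N := by
    have : ((⌊e * (N : ℝ)⌋₊ : ℕ) : ℝ) ≤ N := by nlinarith
    exact_mod_cast this
  have hsub : ((N - ⌊e * (N : ℝ)⌋₊ : ℕ) : ℝ) = N - (⌊e * (N : ℝ)⌋₊ : ℕ) := Nat.cast_sub hkN
  have hm2 : m0 + 2 ≤ N - ⌊e * (N : ℝ)⌋₊ := by
    have : ((m0 + 2 : ℕ) : ℝ) ≤ ((N - ⌊e * (N : ℝ)⌋₊ : ℕ) : ℝ) := by
      rw [hsub]; push_cast; linarith
    exact_mod_cast this
  apply hN ⌊e * (N : ℝ)⌋₊ (N - ⌊e * (N : ℝ)⌋₊) (by omega) _ (by omega) hfl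
  · rw [hsub]; linarith
  · exact hm0 _ (by omega)
  · exact Nat.floor_pos.2 h3

theorem fr_step {r : ℝ} (h : ∃ᶠ m : ℕ in atTop, codeRate θ m < r) {η : ℝ} (hη : 0 < η) :
    ∃ᶠ N : ℕ in atTop, codeRate φ N < -(1 / 2 * Real.logb 2 (DD θ φ r)) + η := by
  obtain ⟨he0, he1⟩ := ratio_facts h0 h1 h2 r
  have hstep := step_rate (r := r) h0 h1 h2 hη
  obtain ⟨e, he⟩ : ∃ e, e = dd θ φ / DD θ φ r := ⟨_, rfl⟩
  rw [← he] at he0 he1
  have he' : dd θ φ / ((1 - dd θ φ) * (2 : ℝ) ^ (-2 * r) + dd θ φ) = e := by rw [he]; rfl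
  rw [he'] at hstep
  obtain ⟨N1, hN1⟩ := eventually_atTop.1 hstep
  have h1e : 0 < 1 - e := by linarith
  have t1 : Tendsto (fun m : ℕ => e / (1 - e) * (m : ℝ)) atTop atTop :=
    tendsto_natCast_atTop_atTop.const_mul_atTop (by positivity)
  rw [frequently_atTop]
  intro a
  obtain ⟨m, hmr, hm1, hm2⟩ := (h.and_eventually ((t1.eventually_ge_atTop 2).and
    (eventually_ge_atTop (a + N1 + 2)))).exists
  have hm0 : (0 : ℝ) ≤ m := Nat.cast_nonneg m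
  have hfl : ((⌊(m : ℝ) / (1 - e)⌋₊ : ℕ) : ℝ) ≤ m / (1 - e) := Nat.floor_le (by positivity)
  have hfl2 : (m : ℝ) / (1 - e) < (⌊(m : ℝ) / (1 - e)⌋₊ : ℕ) + 1 := Nat.lt_floor_add_one _
  rw [le_div_iff₀ h1e] at hfl
  rw [div_lt_iff₀ h1e] at hfl2
  set N := ⌊(m : ℝ) / (1 - e)⌋₊ with hN
  have hmN : m + 1 ≤ N := by
    rw [hN]
    apply Nat.le_floor
    push_cast
    rw [le_div_iff₀ h1e]
    have : e / (1 - e) * m * (1 - e) = e * m := by field_simp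
    have h5 : 2 * (1 - e) ≤ e * m := by
      rw [← this]; exact mul_le_mul_of_nonneg_right hm1 h1e.le
    nlinarith
  have hsub : ((N - m : ℕ) : ℝ) = N - m := Nat.cast_sub (by omega)
  refine ⟨N, by omega, ?_⟩
  apply hN1 N (by omega) (N - m) m (by omega) (by omega) (by omega) _ _ hmr
  · rw [hsub]; linarith
  · nlinarith

/-- the inequality for the limits, general form -/
lemma limit_ineq {Rθ Rφ : ℝ} (h : ∀ r : ℝ, Rθ < r → ∀ η : ℝ, 0 < η →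
    Rφ ≤ -(1 / 2 * Real.logb 2 (DD θ φ r)) + η) :
    (1 - (4 : ℝ) ^ (-Rφ)) * (1 + Real.cos θ) ≤ (1 - (4 : ℝ) ^ (-Rθ)) * (1 + Real.cos φ) := by
  obtain ⟨hd, hd1, -, hdd⟩ := dd_facts h0 h1 h2
  have hcθ : 0 < 1 + Real.cos θ := by
    have : 0 < Real.cos θ := Real.cos_pos_of_mem_Ioo ⟨by linarith [Real.pi_pos], h1.trans h2⟩
    linarith
  have h4 : ∀ x : ℝ, (4 : ℝ) ^ (-x) = (2 : ℝ) ^ (-2 * x) := by
    intro x
    rw [show (4 : ℝ) = (2 : ℝ) ^ (2 : ℝ) by norm_num, ← Real.rpow_mul (by norm_num)]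
    congr 1; ring
  have h5 : ∀ r : ℝ, Rθ < r → DD θ φ r ≤ (2 : ℝ) ^ (-2 * Rφ) := by
    intro r hr
    have h6 : Rφ ≤ -(1 / 2 * Real.logb 2 (DD θ φ r)) :=
      le_of_forall_pos_le_add fun η hη => h r hr η hη
    have hD : 0 < DD θ φ r := by
      unfold DD
      have : 0 < (1 - dd θ φ) * (2 : ℝ) ^ (-2 * r) := mul_pos (by linarith) (by positivity)
      linarith
    rw [← Real.logb_le_iff_le_rpow (by norm_num) hD]
    linarith
  have h6 : DD θ φ Rθ ≤ (2 : ℝ) ^ (-2 * Rφ) := by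
    have hcont : Tendsto (DD θ φ) (𝓝[>] Rθ) (𝓝 (DD θ φ Rθ)) := by
      have : Continuous (DD θ φ) := by
        unfold DD
        apply Continuous.add _ continuous_const
        apply Continuous.mul continuous_const
        exact (Real.continuous_const_rpow (by norm_num)).comp (continuous_const.mul continuous_id)
      exact this.continuousAt.tendsto.mono_left nhdsWithin_le_nhds
    exact le_of_tendsto hcont (eventually_nhdsWithin_of_forall fun r hr => h5 r hr)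
  rw [h4, h4]
  unfold DD at h6
  have h7 : 1 - (2 : ℝ) ^ (-2 * Rφ) ≤ (1 - dd θ φ) * (1 - (2 : ℝ) ^ (-2 * Rθ)) := by linarith
  rw [hdd] at h7
  calc (1 - (2 : ℝ) ^ (-2 * Rφ)) * (1 + Real.cos θ)
      ≤ ((1 + Real.cos φ) / (1 + Real.cos θ) * (1 - (2 : ℝ) ^ (-2 * Rθ))) * (1 + Real.cos θ) :=
        mul_le_mul_of_nonneg_right h7 hcθ.le
    _ = _ := by field_simp

theorem upper_ineq : (1 - (4 : ℝ) ^ (-limsup (codeRate φ) atTop)) * (1 + Real.cos θ) ≤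
    (1 - (4 : ℝ) ^ (-limsup (codeRate θ) atTop)) * (1 + Real.cos φ) := by
  apply limit_ineq h0 h1 h2
  intro r hr η hη
  apply limsup_le_of_le bdd_below.isCoboundedUnder_le
  filter_upwards [ev_step h0 h1 h2 (eventually_lt_of_limsup_lt hr (bdd_above h0 (h1.trans h2))) hη]
    with n hn
  exact hn.le

theorem lower_ineq : (1 - (4 : ℝ) ^ (-liminf (codeRate φ) atTop)) * (1 + Real.cos θ) ≤
    (1 - (4 : ℝ) ^ (-liminf (codeRate θ) atTop)) * (1 + Real.cos φ) := by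
  apply limit_ineq h0 h1 h2
  intro r hr η hη
  apply liminf_le_of_frequently_le _ bdd_below
  exact (fr_step h0 h1 h2 (frequently_lt_of_liminf_lt
    (bdd_above h0 (h1.trans h2)).isCoboundedUnder_ge hr) hη).mono fun n hn => hn.le

/-- strict monotonicity from the inequality -/
lemma strict_of {Rθ Rφ : ℝ} (hφ : 0 < Rφ)
    (h : (1 - (4 : ℝ) ^ (-Rφ)) * (1 + Real.cos θ) ≤ (1 - (4 : ℝ) ^ (-Rθ)) * (1 + Real.cos φ)) :
    Rφ < Rθ := by
  have hc : Real.cos φ < Real.cos θ := Real.cos_lt_cos_of_nonneg_of_le_pi_div_two h0.le h2.le h1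
  have hcφ : 0 < Real.cos φ := Real.cos_pos_of_mem_Ioo ⟨by linarith [Real.pi_pos], h2⟩
  have h3 : (4 : ℝ) ^ (-Rφ) < 1 := Real.rpow_lt_one_of_one_lt_of_neg (by norm_num) (by linarith)
  have h4 : (1 - (4 : ℝ) ^ (-Rφ)) * (1 + Real.cos φ) < (1 - (4 : ℝ) ^ (-Rφ)) * (1 + Real.cos θ) :=
    mul_lt_mul_of_pos_left (by linarith) (by linarith)
  have h5 : (1 - (4 : ℝ) ^ (-Rφ)) * (1 + Real.cos φ) < (1 - (4 : ℝ) ^ (-Rθ)) * (1 + Real.cos φ) :=
    h4.trans_le h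
  have h6 := lt_of_mul_lt_mul_right h5 (by linarith)
  have h7 : (4 : ℝ) ^ (-Rθ) < (4 : ℝ) ^ (-Rφ) := by linarith
  rw [Real.rpow_lt_rpow_left_iff (by norm_num)] at h7
  linarith

end

end Pool.Agent.H85D
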