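import Pool.Agent.H85G.Avg
import Pool.Agent.H818R2.Beta
import Pool.Agent.H818R2.Rankin

/-! The volume of the cone of the points most of whose norm lies in one factor of an orthogonal
decomposition. -/

open MeasureTheory Metric Set Filter
open scoped Topology ENNReal InnerProductSpace
open Pool.Agent.H818R2

namespace Pool.Agent.H85D

section
variable {U V : Type*} [NormedAddCommGroup U] [InnerProductSpace ℝ U] [FiniteDimensional ℝ U]
  [MeasurableSpace U] [BorelSpace U]
  [NormedAddCommGroup V] [InnerProductSpace ℝ V] [FiniteDimensional ℝ V]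
  [MeasurableSpace V] [BorelSpace V]

/-- the cone of the points whose first component has at most the part `d` of the squared norm -/
def cone (U V : Type*) [NormedAddCommGroup U] [NormedAddCommGroup V] (d : ℝ) :
    Set (WithLp 2 (U × V)) := {p | (1 - d) * ‖p.fst‖ ^ 2 ≤ d * ‖p.snd‖ ^ 2}

/-- the product of a ball and a spherical shell -/
def prodSet (U V : Type*) [NormedAddCommGroup U] [NormedAddCommGroup V] (d ρ : ℝ) :
    Set (WithLp 2 (U × V)) := {p | ‖p.fst‖ ≤ √d * ρ ∧ √(1 - d) * ρ < ‖p.snd‖ ∧ ‖p.snd‖ ≤ √(1 - d)}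

lemma cone_meas (d : ℝ) : MeasurableSet (cone U V d) := by
  apply IsClosed.measurableSet
  unfold cone
  apply isClosed_le
  · exact continuous_const.mul (((WithLp.continuous_fst _ _ _).norm).pow 2)
  · exact continuous_const.mul (((WithLp.continuous_snd _ _ _).norm).pow 2)

lemma prodSet_sub {d ρ : ℝ} (hd : 0 < d) (hd1 : d < 1) (hρ : 0 < ρ) (hρ1 : ρ < 1) :
    prodSet U V d ρ ⊆ cone U V d ∩ ball 0 1 := by
  rintro p ⟨h1, h2, h3⟩
  have hd2 : 0 < 1 - d := by linarith
  have s1 := Real.sq_sqrt hd.le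
  have s2 := Real.sq_sqrt hd2.le
  have e1 : ‖p.fst‖ ^ 2 ≤ d * ρ ^ 2 := by
    have := pow_le_pow_left₀ (norm_nonneg _) h1 2
    rwa [mul_pow, s1] at this
  have e2 : (1 - d) * ρ ^ 2 ≤ ‖p.snd‖ ^ 2 := by
    have := pow_le_pow_left₀ (by positivity) h2.le 2
    rwa [mul_pow, s2] at this
  have e3 : ‖p.snd‖ ^ 2 ≤ 1 - d := by
    have := pow_le_pow_left₀ (norm_nonneg _) h3 2
    rwa [s2] at this
  constructor
  · change (1 - d) * ‖p.fst‖ ^ 2 ≤ d * ‖p.snd‖ ^ 2
    calc (1 - d) * ‖p.fst‖ ^ 2 ≤ (1 - d) * (d * ρ ^ 2) := mul_le_mul_of_nonneg_left e1 hd2.le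
      _ = d * ((1 - d) * ρ ^ 2) := by ring
      _ ≤ d * ‖p.snd‖ ^ 2 := mul_le_mul_of_nonneg_left e2 hd.le
  · rw [mem_ball, dist_comm]
    have h := dist_sq 0 p
    rw [show (0 : WithLp 2 (U × V)).fst = 0 from rfl, show (0 : WithLp 2 (U × V)).snd = 0 from rfl,
      dist_zero_left p.fst, dist_zero_left p.snd] at h
    have h5 : (0 : ℝ) ≤ dist 0 p := dist_nonneg
    have hρ2 : ρ ^ 2 < 1 := by nlinarith
    have : dist 0 p ^ 2 < 1 := by
      rw [h]
      have : d * ρ ^ 2 < d * 1 := mul_lt_mul_of_pos_left hρ2 hd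
      linarith
    nlinarith

lemma prodSet_vol {d ρ : ℝ} (hd : 0 < d) (hd1 : d < 1) (hρ : 0 < ρ) (hρ1 : ρ < 1) :
    volume.real (prodSet U V d ρ) =
      ((√d * ρ) ^ Module.finrank ℝ U * vb U) *
        ((√(1 - d)) ^ Module.finrank ℝ V * vb V -
          (√(1 - d) * ρ) ^ Module.finrank ℝ V * vb V) := by
  have hd2 : 0 < 1 - d := by linarith
  have hm : MeasurableSet (prodSet U V d ρ) := by
    unfold prodSet
    refine MeasurableSet.inter ?_ (MeasurableSet.inter ?_ ?_)
    · exact (isClosed_le ((WithLp.continuous_fst _ _ _).norm) continuous_const).measurableSet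
    · exact (isOpen_lt continuous_const ((WithLp.continuous_snd _ _ _).norm)).measurableSet
    · exact (isClosed_le ((WithLp.continuous_snd _ _ _).norm) continuous_const).measurableSet
  have h1 : (WithLp.toLp 2) ⁻¹' (prodSet U V d ρ) = (closedBall (0 : U) (√d * ρ)) ×ˢ
      (closedBall (0 : V) (√(1 - d)) \ closedBall (0 : V) (√(1 - d) * ρ)) := by
    ext ⟨u, v⟩
    simp [prodSet]
    tauto
  have h2 := (WithLp.volume_preserving_toLp U V).measure_preimage hm.nullMeasurableSet
  rw [h1] at h2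
  have hsub : closedBall (0 : V) (√(1 - d) * ρ) ⊆ closedBall (0 : V) (√(1 - d)) := by
    apply closedBall_subset_closedBall
    have := Real.sqrt_nonneg (1 - d)
    nlinarith
  have hdiff : volume.real (closedBall (0 : V) (√(1 - d)) \ closedBall (0 : V) (√(1 - d) * ρ)) =
      volume.real (closedBall (0 : V) (√(1 - d))) - volume.real (closedBall (0 : V) (√(1 - d) * ρ)) :=
    measureReal_sdiff hsub measurableSet_closedBall measure_closedBall_lt_top.ne
  rw [measureReal_def, ← h2, Measure.volume_eq_prod, Measure.prod_prod, ENNReal.toReal_mul,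
    ← measureReal_def, ← measureReal_def, vol_closedBall _ (by positivity), hdiff,
    vol_closedBall _ (by positivity), vol_closedBall _ (by positivity)]

/-- lower bound for the volume of the cone -/
lemma cone_vol {d : ℝ} (hd : 0 < d) (hd1 : d < 1) (hV : 0 < Module.finrank ℝ V) :
    1 / (4 * (Module.finrank ℝ U + Module.finrank ℝ V : ℝ)) *
      (√d ^ Module.finrank ℝ U * √(1 - d) ^ Module.finrank ℝ V) * (vb U * vb V) ≤
      volume.real (cone U V d ∩ ball 0 1) := by
  set k := Module.finrank ℝ U with hk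
  set m := Module.finrank ℝ V with hm
  have hm0 : (1 : ℝ) ≤ m := by exact_mod_cast hV
  have hk0 : (0 : ℝ) ≤ k := Nat.cast_nonneg k
  set N : ℝ := k + m with hN
  have hN1 : 1 ≤ N := by linarith
  set ρ : ℝ := 1 - 1 / (2 * N) with hρ
  have hi : 0 < 1 / (2 * N) := by positivity
  have hi2 : 1 / (2 * N) ≤ 1 / 2 := by
    apply div_le_div_of_nonneg_left (by norm_num) (by norm_num)
    linarith
  have hρ0 : 0 < ρ := by rw [hρ]; linarith
  have hρ1 : ρ < 1 := by rw [hρ]; linarith
  have hd2 : 0 < 1 - d := by linarith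
  have h1 : volume.real (prodSet U V d ρ) ≤ volume.real (cone U V d ∩ ball 0 1) := by
    exact measureReal_mono (prodSet_sub hd hd1 hρ0 hρ1)
      ((measure_mono inter_subset_right).trans_lt measure_ball_lt_top).ne
  refine le_trans ?_ h1
  rw [prodSet_vol hd hd1 hρ0 hρ1, mul_pow, mul_pow]
  have hU : 0 < vb U := vb_pos
  have hVv : 0 < vb V := vb_pos
  have e1 : 1 / 2 ≤ ρ ^ k := by
    have := one_add_mul_le_pow (a := -(1 / (2 * N))) (by linarith) k
    have e2 : 1 + (k : ℝ) * -(1 / (2 * N)) ≥ 1 / 2 := by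
      have : (k : ℝ) * (1 / (2 * N)) ≤ 1 / 2 := by
        rw [mul_one_div, div_le_iff₀ (by positivity)]
        linarith
      linarith
    have e3 : 1 + -(1 / (2 * N)) = ρ := by rw [hρ]; ring
    rw [e3] at this
    linarith
  have e2 : 1 / (2 * N) ≤ 1 - ρ ^ m := by
    have : ρ ^ m ≤ ρ ^ 1 := pow_le_pow_of_le_one hρ0.le hρ1.le hV
    rw [pow_one] at this
    rw [hρ] at this ⊢
    linarith
  have e4 : √d ^ k * ρ ^ k * vb U * (√(1 - d) ^ m * vb V - √(1 - d) ^ m * ρ ^ m * vb V) =
      ρ ^ k * (1 - ρ ^ m) * ((√d ^ k * √(1 - d) ^ m) * (vb U * vb V)) := by ring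
  rw [e4, mul_assoc]
  have e5 : 1 / (4 * N) = 1 / 2 * (1 / (2 * N)) := by
    field_simp; norm_num
  change 1 / (4 * N) * _ ≤ _
  rw [e5]
  apply mul_le_mul_of_nonneg_right _ (by positivity)
  exact mul_le_mul e1 e2 hi.le (by positivity)

end

end Pool.Agent.H85D
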